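import Mathlib

/-!
# The linear space on 48 points

Points: `(g, l)` with `g < 8`, `l < 6` (the point `3^l v_g` of `𝔽₇² ∖ 0`).  Blocks: `(i, j)`.
Block `(i, j)` is the line `{x : 3^j w_i · x = 1}` with `w_i` orthogonal to `v_i`.
-/

namespace Q116.MC

open Finset

/-- The points. -/
abbrev Pt := Fin 8 × Fin 6

/-- Discrete logarithm to the base `3` modulo `7`. -/
def lg (x : ℕ) : ℕ :=
  if x = 1 then 0 else if x = 2 then 2 else if x = 3 then 1 else if x = 4 then 4 else
    if x = 5 then 5 else 3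

/-- The exponent matrix. -/
def dm (i g : ℕ) : ℕ := if i = 7 ∨ g = 7 then 0 else lg ((g + 7 - i) % 7)

/-- Incidence of the block `b` and the point `p`. -/
def inc (b p : Pt) : Bool :=
  (b.1 != p.1) && ((p.2.val + b.2.val + dm b.1.val p.1.val) % 6 == 0)

/-- The block `b` as a set of points. -/
def blk (b : Pt) : Finset Pt := univ.filter (fun p => inc b p = true)

/-- The `s`-th triple (`s < 3`) in group `g`: `{0,3,1}`, `{1,4,2}`, `{2,5,0}`. -/
def triRel (s : Fin 3) (l : Fin 6) : Bool :=
  (l.val == s.val) || (l.val == s.val + 3) || (l.val == (s.val + 1) % 3)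

/-- The triple as a set of points. -/
def tri (g : Fin 8) (s : Fin 3) : Finset Pt := univ.filter (fun p => p.1 = g ∧ triRel s p.2 = true)

lemma blk_card : ∀ b : Pt, (blk b).card = 7 := by decide +kernel

lemma blk_inter : ∀ b b' : Pt, b ≠ b' → (blk b ∩ blk b').card ≤ 1 := by decide +kernel

lemma blk_meet : ∀ b b' : Pt, b.1 ≠ b'.1 → (blk b ∩ blk b').card = 1 := by decide +kernel

lemma blk_join : ∀ p q : Pt, p.1 ≠ q.1 → ∃ b : Pt, inc b p = true ∧ inc b q = true := by
  decide +kernel

lemma blk_group : ∀ (b : Pt) (g : Fin 8), ((blk b).filter (fun p => p.1 = g)).card =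
    if b.1 = g then 0 else 1 := by decide +kernel

lemma blk_class : ∀ (g : Fin 8) (p : Pt), p.1 ≠ g → ∃ j : Fin 6, inc (g, j) p = true := by
  decide +kernel

lemma tri_inter : ∀ (g : Fin 8) (s s' : Fin 3), s ≠ s' → (tri g s ∩ tri g s').card = 1 := by
  decide +kernel

lemma tri_card : ∀ (g : Fin 8) (s : Fin 3), (tri g s).card = 3 := by
  decide +kernel

end Q116.MC
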