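import Mathlib
import Pool.Agent.Q116.MC.Plane

/-!
# The 48-point linear space is not a union of eight lines
-/

namespace Q116.MC

open Finset

/-- The points of group `g`. -/
def grp (g : Fin 8) : Finset Pt := univ.filter (fun p => p.1 = g)

lemma grp_card : ∀ g : Fin 8, (grp g).card = 6 := by decide +kernel

/-- A set inside one group, with at most two points or inside a triple. -/
def Small (X : Finset Pt) : Prop := X.card ≤ 2 ∨ ∃ g s, X ⊆ tri g s

lemma small_card {X : Finset Pt} (h : Small X) : X.card ≤ 3 := by
  rcases h with h | ⟨g, s, h⟩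
  · omega
  · exact (card_le_card h).trans (tri_card g s).le

lemma two_tri : ∀ (g g₁ g₂ : Fin 8) (s₁ s₂ : Fin 3),
    (grp g ∩ (tri g₁ s₁ ∪ tri g₂ s₂)).card ≤ 5 := by decide +kernel

lemma two_small {X Y : Finset Pt} (hX : Small X) (hY : Small Y) (g : Fin 8) :
    ¬ grp g ⊆ X ∪ Y := by
  intro hsub
  have h6 := grp_card g
  have h1 := card_le_card hsub
  have h2 := card_union_le X Y
  have hX3 := small_card hX
  have hY3 := small_card hY
  rcases hX with hX | ⟨g₁, s₁, hX⟩
  · omega
  rcases hY with hY | ⟨g₂, s₂, hY⟩
  · omega
  have h3 := two_tri g g₁ g₂ s₁ s₂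
  have h4 : grp g ⊆ grp g ∩ (tri g₁ s₁ ∪ tri g₂ s₂) :=
    subset_inter Subset.rfl (hsub.trans (union_subset_union hX hY))
  have := card_le_card h4
  omega

section count

variable (K : Finset (Fin 8)) (b : Fin 8 → Pt)

/-- The number of chosen blocks through `p`. -/
def mu (p : Pt) : ℕ := (K.filter (fun k => inc (b k) p = true)).card

lemma mu_eq (p : Pt) : mu K b p = ∑ k ∈ K, if inc (b k) p = true then 1 else 0 := by
  unfold mu
  rw [card_filter]

lemma sum_mu (S : Finset Pt) : ∑ p ∈ S, mu K b p = ∑ k ∈ K, (S ∩ blk (b k)).card := by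
  simp_rw [mu_eq]
  rw [sum_comm]
  apply sum_congr rfl
  intro k _
  unfold blk
  rw [inter_filter, inter_univ, card_filter]

lemma sum_mu_univ : ∑ p, mu K b p = 7 * K.card := by
  rw [sum_mu]
  simp only [univ_inter, blk_card, sum_const, smul_eq_mul]
  ring

lemma sum_mu_grp (g : Fin 8) :
    ∑ p ∈ grp g, mu K b p + (K.filter (fun k => (b k).1 = g)).card = K.card := by
  rw [sum_mu, card_filter, ← sum_add_distrib, card_eq_sum_ones]
  apply sum_congr rfl
  intro k _
  have h := blk_group (b k) g
  have : grp g ∩ blk (b k) = (blk (b k)).filter (fun p => p.1 = g) := by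
    unfold grp
    rw [inter_comm, inter_filter, inter_univ]
  rw [this, h]
  split_ifs <;> rfl

/-- The blocks whose class differs from that of `k`. -/
def rr (k : Fin 8) : ℕ := (K.filter (fun k' => (b k').1 ≠ (b k).1)).card

lemma rr_add (k : Fin 8) :
    rr K b k + (K.filter (fun k' => (b k').1 = (b k).1)).card = K.card := by
  unfold rr
  rw [add_comm]
  exact card_filter_add_card_filter_not _

lemma rr_le {k : Fin 8} (hk : k ∈ K) :
    7 + rr K b k ≤ ∑ p ∈ blk (b k), mu K b p := by
  rw [sum_mu]
  unfold rr
  rw [card_filter]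
  have h1 : ∑ k' ∈ K, ((if (b k').1 ≠ (b k).1 then 1 else 0) + if k' = k then 7 else 0) ≤
      ∑ k' ∈ K, (blk (b k) ∩ blk (b k')).card := by
    apply sum_le_sum
    intro k' _
    by_cases h : k' = k
    · subst h
      simp [blk_card]
    · rw [if_neg h]
      split_ifs with h2
      · rw [blk_meet _ _ (Ne.symm h2)]
      · omega
  rw [sum_add_distrib, sum_ite_eq', if_pos hk] at h1
  omega

end count

/-- **No cover.** -/
theorem noCover (K : Finset (Fin 8)) (b : Fin 8 → Pt) (X : Fin 8 → Finset Pt)
    (hX : ∀ k, k ∉ K → Small (X k))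
    (hcov : ∀ p : Pt, (∃ k ∈ K, inc (b k) p = true) ∨ ∃ k, k ∉ K ∧ p ∈ X k) : False := by
  classical
  set m := mu K b with hm
  have hK8 : K.card ≤ 8 := by
    have := card_le_univ K
    simpa using this
  -- uncovered points
  set U : Finset Pt := univ.filter (fun p => m p = 0) with hU
  have hUsub : U ⊆ (univ \ K).biUnion X := by
    intro p hp
    rw [hU, mem_filter] at hp
    rw [mem_biUnion]
    rcases hcov p with ⟨k, hk, hkp⟩ | ⟨k, hk, hkp⟩
    · exfalso
      have h0 := hp.2
      rw [hm] at h0
      unfold mu at h0
      rw [card_eq_zero] at h0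
      have : k ∈ K.filter (fun k => inc (b k) p = true) := mem_filter.mpr ⟨hk, hkp⟩
      rw [h0] at this
      simp at this
    · exact ⟨k, by simp [hk], hkp⟩
  have hKc : (univ \ K).card = 8 - K.card := by
    rw [card_sdiff_of_subset (subset_univ K)]
    simp
  have hUcard : U.card ≤ 3 * (8 - K.card) := by
    refine (card_le_card hUsub).trans (card_biUnion_le.trans ?_)
    calc ∑ k ∈ univ \ K, (X k).card ≤ ∑ k ∈ univ \ K, 3 := by
          apply sum_le_sum
          intro k hk
          exact small_card (hX k (by simpa using hk))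
      _ = 3 * (8 - K.card) := by rw [sum_const, hKc]; simp; ring
  -- the excess
  set e : Pt → ℕ := fun p => m p - 1 with he
  have hme : ∀ p, m p + (if m p = 0 then 1 else 0) = e p + 1 := by
    intro p
    simp only [he]
    split_ifs with h
    · omega
    · omega
  have hsum : 7 * K.card + U.card = ∑ p, e p + 48 := by
    have h1 : ∑ p, (m p + (if m p = 0 then 1 else 0)) = ∑ p, (e p + 1) :=
      sum_congr rfl (fun p _ => hme p)
    rw [sum_add_distrib, sum_add_distrib, hm, sum_mu_univ, ← card_filter] at h1
    rw [hU, hm, h1]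
    simp
  have hE : ∑ p, e p + 24 ≤ 4 * K.card := by omega
  -- excess on a block
  have hr : ∀ k ∈ K, rr K b k ≤ ∑ p ∈ blk (b k), e p := by
    intro k hk
    have h1 := rr_le K b hk
    have h2 : ∑ p ∈ blk (b k), m p = ∑ p ∈ blk (b k), e p + 7 := by
      have : ∀ p ∈ blk (b k), m p = e p + 1 := by
        intro p hp
        have hpos : m p ≠ 0 := by
          rw [hm]
          unfold mu
          rw [Finset.card_ne_zero]
          refine ⟨k, mem_filter.mpr ⟨hk, ?_⟩⟩
          unfold blk at hp
          exact (mem_filter.mp hp).2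
        have := hme p
        rw [if_neg hpos] at this
        omega
      rw [sum_congr rfl this, sum_add_distrib, sum_const, blk_card]
      simp
    rw [← hm] at h1
    omega
  have hr' : ∀ k ∈ K, rr K b k ≤ ∑ p, e p := by
    intro k hk
    exact (hr k hk).trans (sum_le_sum_of_subset (subset_univ _))
  -- if all blocks lie in class `g`, group `g` is untouched
  have hclass : ∀ g, (∀ k ∈ K, (b k).1 = g) → grp g ⊆ (univ \ K).biUnion X := by
    intro g hg p hp
    apply hUsub
    rw [hU, mem_filter]
    refine ⟨mem_univ _, ?_⟩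
    have h1 := sum_mu_grp K b g
    have h2 : K.filter (fun k => (b k).1 = g) = K := by
      apply filter_true_of_mem
      exact hg
    rw [h2] at h1
    have h3 : ∑ p ∈ grp g, mu K b p = 0 := by omega
    rw [sum_eq_zero_iff] at h3
    exact h3 p hp
  have h6 : 6 ≤ K.card := by omega
  have hcases : K.card = 6 ∨ K.card = 7 ∨ K.card = 8 := by omega
  rcases hcases with h | h | h
  · -- six blocks
    obtain ⟨k₀, hk₀⟩ : K.Nonempty := by rw [← card_pos]; omega
    have hall : ∀ k ∈ K, (b k).1 = (b k₀).1 := by
      intro k hk
      by_contra hne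
      have h1 := hr' k₀ hk₀
      have h2 : rr K b k₀ = 0 := by omega
      unfold rr at h2
      rw [card_eq_zero] at h2
      have : k ∈ K.filter (fun k' => (b k').1 ≠ (b k₀).1) := mem_filter.mpr ⟨hk, hne⟩
      rw [h2] at this
      simp at this
    have hg := hclass _ hall
    rw [h] at hKc
    obtain ⟨i, j, hij, hKij⟩ := card_eq_two.mp hKc
    rw [hKij] at hg
    have hi : i ∉ K := by
      have : i ∈ univ \ K := by rw [hKij]; simp
      simpa using this
    have hj : j ∉ K := by
      have : j ∈ univ \ K := by rw [hKij]; simp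
      simpa using this
    apply two_small (hX i hi) (hX j hj) (b k₀).1
    refine hg.trans ?_
    intro p hp
    rw [mem_biUnion] at hp
    obtain ⟨k, hk, hp⟩ := hp
    simp only [mem_insert, mem_singleton] at hk
    rw [mem_union]
    rcases hk with rfl | rfl
    · exact Or.inl hp
    · exact Or.inr hp
  · -- seven blocks
    rw [h] at hKc
    obtain ⟨i, hKi⟩ := card_eq_one.mp hKc
    have hi : i ∉ K := by
      have : i ∈ univ \ K := by rw [hKi]; simp
      simpa using this
    have hUi : U ⊆ X i := by
      refine hUsub.trans ?_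
      rw [hKi]
      simp
    have hXi := small_card (hX i hi)
    -- a group with at least three blocks of its class is not fully covered
    have hkey : ∀ k ∈ K, ∀ p ∈ grp (b k).1, (m p = 0 → p ∈ X i) := by
      intro k _ p _ h0
      exact hUi (by rw [hU, mem_filter]; exact ⟨mem_univ _, h0⟩)
    have hgr : ∀ k ∈ K, 2 ≤ ((grp (b k).1).filter (fun p => m p = 0)).card := by
      intro k hk
      have h1 := hr' k hk
      have h2 : rr K b k ≤ 4 := by omega
      have h3 := rr_add K b k
      have h4 := sum_mu_grp K b (b k).1
      have h5 : ((grp (b k).1).filter (fun p => ¬ m p = 0)).card ≤ ∑ p ∈ grp (b k).1, m p := by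
        rw [card_filter]
        apply sum_le_sum
        intro p _
        split_ifs with hp
        · omega
        · omega
      have h7 := card_filter_add_card_filter_not (s := grp (b k).1) (fun p => m p = 0)
      rw [grp_card] at h7
      rw [← hm] at h4
      omega
    -- all classes agree
    obtain ⟨k₀, hk₀⟩ : K.Nonempty := by rw [← card_pos]; omega
    have hall : ∀ k ∈ K, (b k).1 = (b k₀).1 := by
      intro k hk
      by_contra hne
      have h1 := hgr k hk
      have h2 := hgr k₀ hk₀
      have hdisj : Disjoint ((grp (b k).1).filter (fun p => m p = 0))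
          ((grp (b k₀).1).filter (fun p => m p = 0)) := by
        rw [Finset.disjoint_left]
        intro p hp hp'
        unfold grp at hp hp'
        simp only [mem_filter] at hp hp'
        exact hne (hp.1.2.symm.trans hp'.1.2)
      have h3 := card_union_of_disjoint hdisj
      have h4 : ((grp (b k).1).filter (fun p => m p = 0)) ∪
          ((grp (b k₀).1).filter (fun p => m p = 0)) ⊆ X i := by
        apply union_subset
        · intro p hp
          rw [mem_filter] at hp
          exact hkey k hk p hp.1 hp.2
        · intro p hp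
          rw [mem_filter] at hp
          exact hkey k₀ hk₀ p hp.1 hp.2
      have := card_le_card h4
      omega
    have hg := hclass _ hall
    rw [hKi] at hg
    simp only [singleton_biUnion] at hg
    have := card_le_card hg
    rw [grp_card] at this
    omega
  · -- eight blocks
    have hU0 : U = ∅ := by
      rw [← card_eq_zero]
      omega
    have hpos : ∀ p, 1 ≤ m p := by
      intro p
      by_contra h0
      have : p ∈ U := by rw [hU, mem_filter]; exact ⟨mem_univ _, by omega⟩
      rw [hU0] at this
      simp at this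
    have hmp : ∀ p, m p ≤ 3 := by
      intro p
      have h1 := sum_mu_grp K b p.1
      rw [← hm] at h1
      have hp : p ∈ grp p.1 := by unfold grp; simp
      have h2 : ∑ q ∈ (grp p.1).erase p, m q + m p = ∑ q ∈ grp p.1, m q :=
        sum_erase_add _ _ hp
      have h3 : ((grp p.1).erase p).card ≤ ∑ q ∈ (grp p.1).erase p, m q := by
        rw [card_eq_sum_ones]
        exact sum_le_sum (fun q _ => hpos q)
      rw [card_erase_of_mem hp, grp_card] at h3
      omega
    have hrk : ∀ k ∈ K, 6 ≤ rr K b k := by
      intro k hk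
      have h1 := sum_mu_grp K b (b k).1
      rw [← hm] at h1
      have h3 : (grp (b k).1).card ≤ ∑ q ∈ grp (b k).1, m q := by
        rw [card_eq_sum_ones]
        exact sum_le_sum (fun q _ => hpos q)
      rw [grp_card] at h3
      have h4 := rr_add K b k
      omega
    have h1 : 48 ≤ ∑ k ∈ K, ∑ p ∈ blk (b k), e p := by
      calc 48 = ∑ k ∈ K, 6 := by rw [sum_const, h]; rfl
        _ ≤ ∑ k ∈ K, rr K b k := sum_le_sum hrk
        _ ≤ _ := sum_le_sum hr
    have h2 : ∑ k ∈ K, ∑ p ∈ blk (b k), e p = ∑ p, m p * e p := by
      have : ∀ k ∈ K, ∑ p ∈ blk (b k), e p = ∑ p, if inc (b k) p = true then e p else 0 := by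
        intro k _
        unfold blk
        rw [sum_filter]
      rw [sum_congr rfl this, sum_comm]
      apply sum_congr rfl
      intro p _
      rw [hm, mu_eq, sum_mul]
      apply sum_congr rfl
      intro k _
      split_ifs <;> simp
    have h3 : ∑ p, m p * e p ≤ ∑ p, 3 * e p :=
      sum_le_sum (fun p _ => Nat.mul_le_mul_right _ (hmp p))
    rw [← mul_sum] at h3
    omega

end Q116.MC
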