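import Mathlib

/-!
# The rank-3 matroid of a family of sets pairwise meeting in at most one element
-/

namespace Q116.MC

open Set

variable {P : Type*}

/-- Bases: three-element sets contained in no member of the family. -/
def Base3 (ℒ : Set (Set P)) (B : Set P) : Prop := B.ncard = 3 ∧ ∀ L ∈ ℒ, ¬ B ⊆ L

lemma base3_finite {ℒ : Set (Set P)} {B : Set P} (h : Base3 ℒ B) : B.Finite :=
  Set.finite_of_ncard_ne_zero (by rw [h.1]; norm_num)

lemma base3_exchange (ℒ : Set (Set P))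
    (h1 : ∀ L ∈ ℒ, ∀ L' ∈ ℒ, ∀ u v, u ≠ v → u ∈ L → v ∈ L → u ∈ L' → v ∈ L' → L = L') :
    Matroid.ExchangeProperty (Base3 ℒ) := by
  intro B B' hB hB' x hx
  have hBf := base3_finite hB
  have hBf' := base3_finite hB'
  by_contra hcon
  push Not at hcon
  have h2 : (B \ {x}).ncard = 2 := by
    rw [Set.ncard_sdiff_singleton_of_mem hx.1, hB.1]
  obtain ⟨u, v, huv, hBx⟩ := Set.ncard_eq_two.mp h2
  have hy : ∀ y ∈ B' \ B, ∃ L ∈ ℒ, insert y (B \ {x}) ⊆ L := by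
    intro y hy
    have := hcon y hy
    unfold Base3 at this
    push Not at this
    apply this
    rw [Set.ncard_insert_of_notMem (fun h => hy.2 h.1) (hBf.subset sdiff_subset), h2]
  have hne : (B' \ B).Nonempty := by
    by_contra hemp
    rw [Set.not_nonempty_iff_eq_empty, Set.sdiff_eq_empty] at hemp
    have hss : B' ⊂ B := ⟨hemp, fun h => hx.2 (h hx.1)⟩
    have := Set.ncard_lt_ncard hss hBf
    rw [hB.1, hB'.1] at this
    omega
  obtain ⟨y₀, hy₀⟩ := hne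
  obtain ⟨L, hL, hL2⟩ := hy y₀ hy₀
  have hu : u ∈ B \ {x} := by rw [hBx]; simp
  have hv : v ∈ B \ {x} := by rw [hBx]; simp
  apply hB'.2 L hL
  intro y hyB'
  by_cases hyB : y ∈ B
  · apply hL2
    right
    refine ⟨hyB, ?_⟩
    rintro rfl
    exact hx.2 hyB'
  · obtain ⟨L', hL', hL'2⟩ := hy y ⟨hyB', hyB⟩
    have : L = L' := h1 L hL L' hL' u v huv (hL2 (Or.inr hu)) (hL2 (Or.inr hv))
      (hL'2 (Or.inr hu)) (hL'2 (Or.inr hv))
    rw [this]
    exact hL'2 (Or.inl rfl)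

/-- The rank-3 matroid on the whole type. -/
def mat (ℒ : Set (Set P))
    (h1 : ∀ L ∈ ℒ, ∀ L' ∈ ℒ, ∀ u v, u ≠ v → u ∈ L → v ∈ L → u ∈ L' → v ∈ L' → L = L')
    (h2 : ∃ B, Base3 ℒ B) : Matroid P :=
  Matroid.ofExistsFiniteIsBase univ (Base3 ℒ)
    (by obtain ⟨B, hB⟩ := h2; exact ⟨B, hB, base3_finite hB⟩)
    (base3_exchange ℒ h1) (fun _ _ => subset_univ _)

variable {ℒ : Set (Set P)}
    {h1 : ∀ L ∈ ℒ, ∀ L' ∈ ℒ, ∀ u v, u ≠ v → u ∈ L → v ∈ L → u ∈ L' → v ∈ L' → L = L'}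
    {h2 : ∃ B, Base3 ℒ B}

lemma mat_E : (mat ℒ h1 h2).E = univ := rfl

lemma mat_isBase (B : Set P) : (mat ℒ h1 h2).IsBase B ↔ Base3 ℒ B := Iff.rfl

lemma mat_indep (I : Set P) : (mat ℒ h1 h2).Indep I ↔ ∃ B, Base3 ℒ B ∧ I ⊆ B := Iff.rfl

lemma eRk_line (L : Set P) (hL : L ∈ ℒ) : (mat ℒ h1 h2).eRk L ≤ 2 := by
  rw [Matroid.eRk_le_iff]
  intro I hIL hI
  rw [mat_indep] at hI
  obtain ⟨B, hB, hIB⟩ := hI
  have hBf := base3_finite hB
  by_contra hcon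
  push Not at hcon
  have hIf := hBf.subset hIB
  have h3 : 3 ≤ I.ncard := by
    rw [← hIf.cast_ncard_eq] at hcon
    exact_mod_cast hcon
  have hIB' : I = B := Set.eq_of_subset_of_ncard_le hIB (by rw [hB.1]; exact h3) hBf
  exact hB.2 L hL (hIB' ▸ hIL)

lemma flat_cases [Finite P] (F : Set P) (hF : (mat ℒ h1 h2).eRk F ≤ 2) :
    (∃ L ∈ ℒ, F ⊆ L) ∨ F.ncard ≤ 2 := by
  by_contra hcon
  push Not at hcon
  obtain ⟨hc1, hc2⟩ := hcon
  obtain ⟨T, hTF, hT⟩ := Set.exists_subset_card_eq (s := F) (n := 3) (by omega)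
  have hno : ∀ S ⊆ F, S.ncard = 3 → ∃ L ∈ ℒ, S ⊆ L := by
    intro S hS hS3
    by_contra hne
    push Not at hne
    have hb : (mat ℒ h1 h2).Indep S := by
      rw [mat_indep]
      exact ⟨S, ⟨hS3, hne⟩, Subset.rfl⟩
    rw [Matroid.eRk_le_iff] at hF
    have := hF hS hb
    rw [← (Set.toFinite S).cast_ncard_eq, hS3] at this
    norm_cast at this
  obtain ⟨u, v, w, huv, huw, hvw, rfl⟩ := Set.ncard_eq_three.mp hT
  obtain ⟨L, hL, hTL⟩ := hno _ hTF hT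
  apply hc1 L hL
  intro z hz
  by_cases hzu : z = u
  · exact hzu ▸ hTL (by simp)
  by_cases hzv : z = v
  · exact hzv ▸ hTL (by simp)
  have hsub : ({z, u, v} : Set P) ⊆ F := by
    rintro y (rfl | rfl | rfl)
    · exact hz
    · exact hTF (by simp)
    · exact hTF (by simp)
  obtain ⟨L', hL', hT'⟩ := hno {z, u, v} hsub (Set.ncard_eq_three.mpr ⟨z, u, v, hzu, hzv, huv, rfl⟩)
  have : L = L' := h1 L hL L' hL' u v huv (hTL (by simp)) (hTL (by simp)) (hT' (by simp))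
    (hT' (by simp))
  rw [this]
  exact hT' (by simp)

end Q116.MC
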