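import Mathlib
import Pool.Agent.Q116.MC.Rank3
import Pool.Agent.Q116.MC.Plane
import Pool.Agent.Q116.MC.NoCover

/-!
# The matroid on 48 elements
-/

namespace Q116.MC

open Set
open scoped Matroid

/-- The long lines: blocks and triples. -/
def longLines : Set (Set Pt) :=
  {L | (∃ b, L = ↑(blk b)) ∨ ∃ g s, L = ↑(tri g s)}

lemma mem_tri {g : Fin 8} {s : Fin 3} {p : Pt} : p ∈ tri g s ↔ p.1 = g ∧ triRel s p.2 = true := by
  unfold tri
  simp

lemma mem_blk {b p : Pt} : p ∈ blk b ↔ inc b p = true := by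
  unfold blk
  simp

lemma blk_tri {b : Pt} {g : Fin 8} {s : Fin 3} {u v : Pt} (huv : u ≠ v) (hu : u ∈ blk b)
    (hv : v ∈ blk b) (hu' : u ∈ tri g s) (hv' : v ∈ tri g s) : False := by
  have h := blk_group b g
  have h1 : ((blk b).filter (fun p => p.1 = g)).card ≤ 1 := by
    rw [h]; split_ifs <;> omega
  rw [Finset.card_le_one] at h1
  apply huv
  apply h1
  · rw [Finset.mem_filter]
    exact ⟨hu, (mem_tri.mp hu').1⟩
  · rw [Finset.mem_filter]
    exact ⟨hv, (mem_tri.mp hv').1⟩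

lemma longLines_lin : ∀ L ∈ longLines, ∀ L' ∈ longLines, ∀ u v, u ≠ v → u ∈ L → v ∈ L →
    u ∈ L' → v ∈ L' → L = L' := by
  rintro L (⟨b, rfl⟩ | ⟨g, s, rfl⟩) L' (⟨b', rfl⟩ | ⟨g', s', rfl⟩) u v huv hu hv hu' hv'
  · by_cases hbb : b = b'
    · rw [hbb]
    · exfalso
      have h := blk_inter b b' hbb
      rw [Finset.card_le_one] at h
      apply huv
      apply h
      · rw [Finset.mem_inter]; exact ⟨hu, hu'⟩
      · rw [Finset.mem_inter]; exact ⟨hv, hv'⟩
  · exact (blk_tri huv hu hv hu' hv').elim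
  · exact (blk_tri huv hu' hv' hu hv).elim
  · have hg : g = g' := (mem_tri.mp hu).1.symm.trans (mem_tri.mp hu').1
    subst hg
    by_cases hss : s = s'
    · rw [hss]
    · exfalso
      have h := (tri_inter g s s' hss).le
      rw [Finset.card_le_one] at h
      apply huv
      apply h
      · rw [Finset.mem_inter]; exact ⟨hu, hu'⟩
      · rw [Finset.mem_inter]; exact ⟨hv, hv'⟩

/-- Three points on a common long line (Boolean test). -/
def coll (e f w : Pt) : Bool :=
  decide (∃ b : Pt, inc b e = true ∧ inc b f = true ∧ inc b w = true) ||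
    decide (∃ s : Fin 3, e.1 = f.1 ∧ e.1 = w.1 ∧ triRel s e.2 = true ∧ triRel s f.2 = true ∧
      triRel s w.2 = true)

lemma third : ∀ e f : Pt, e ≠ f → ∃ w : Pt, w ≠ e ∧ w ≠ f ∧ coll e f w = false := by
  decide +kernel

lemma pair_base {e f : Pt} (hef : e ≠ f) : ∃ B, Base3 longLines B ∧ ({e, f} : Set Pt) ⊆ B := by
  obtain ⟨w, hwe, hwf, hw⟩ := third e f hef
  refine ⟨{e, f, w}, ⟨Set.ncard_eq_three.mpr ⟨e, f, w, hef, hwe.symm, hwf.symm, rfl⟩, ?_⟩, ?_⟩
  · intro L hL hsub
    have he : e ∈ L := hsub (by simp)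
    have hf : f ∈ L := hsub (by simp)
    have hw' : w ∈ L := hsub (by simp)
    unfold coll at hw
    rw [Bool.or_eq_false_iff, decide_eq_false_iff_not, decide_eq_false_iff_not] at hw
    rcases hL with ⟨b, rfl⟩ | ⟨g, s, rfl⟩
    · exact hw.1 ⟨b, mem_blk.mp he, mem_blk.mp hf, mem_blk.mp hw'⟩
    · have h1 := mem_tri.mp he
      have h2 := mem_tri.mp hf
      have h3 := mem_tri.mp hw'
      exact hw.2 ⟨s, h1.1.trans h2.1.symm, h1.1.trans h3.1.symm, h1.2, h2.2, h3.2⟩
  · intro x hx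
    rcases hx with rfl | rfl
    · simp
    · simp

lemma exists_base : ∃ B, Base3 longLines B := by
  obtain ⟨B, hB, -⟩ := pair_base (e := (0, 0)) (f := (0, 1)) (by decide)
  exact ⟨B, hB⟩

/-- The matroid. -/
def M48 : Matroid Pt := mat longLines longLines_lin exists_base

lemma M48_E : M48.E = univ := rfl

/-- Eight lines covering everything but `x`. -/
def cov (x : Pt) (k : Fin 8) : Finset Pt :=
  if h : k.val < 6 then blk (x.1, ⟨k.val, h⟩)
  else if k.val = 6 then tri x.1 ⟨(x.2.val + 1) % 3, Nat.mod_lt _ (by norm_num)⟩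
  else if x.2.val < 3 then Finset.univ.filter (fun p => p.1 = x.1 ∧
      (p.2.val = x.2.val + 3 ∨ p.2.val = (x.2.val + 2) % 3 + 3))
  else tri x.1 ⟨(x.2.val + 2) % 3, Nat.mod_lt _ (by norm_num)⟩

lemma cov_spec : ∀ x p : Pt, p ≠ x → ∃ k, p ∈ cov x k := by decide +kernel

lemma cov_small : ∀ x : Pt, x.2.val < 3 → (cov x 7).card ≤ 2 := by decide +kernel

lemma eRk_cov (x : Pt) (k : Fin 8) : M48.eRk (cov x k : Set Pt) ≤ 2 := by
  have hb : ∀ b : Pt, M48.eRk (blk b : Set Pt) ≤ 2 := fun b => eRk_line _ (Or.inl ⟨b, rfl⟩)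
  have ht : ∀ g s, M48.eRk (tri g s : Set Pt) ≤ 2 := fun g s => eRk_line _ (Or.inr ⟨g, s, rfl⟩)
  by_cases h1 : k.val < 6
  · have : cov x k = blk (x.1, ⟨k.val, h1⟩) := by unfold cov; rw [dif_pos h1]
    rw [this]; exact hb _
  by_cases h2 : k.val = 6
  · have : cov x k = tri x.1 ⟨(x.2.val + 1) % 3, Nat.mod_lt _ (by norm_num)⟩ := by
      unfold cov; rw [dif_neg h1, if_pos h2]
    rw [this]; exact ht _ _
  by_cases h3 : x.2.val < 3
  · have hk : k = 7 := by
      apply Fin.ext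
      show k.val = 7
      omega
    subst hk
    refine (M48.eRk_le_encard _).trans ?_
    rw [Set.encard_coe_eq_coe_finsetCard]
    exact_mod_cast cov_small x h3
  · have : cov x k = tri x.1 ⟨(x.2.val + 2) % 3, Nat.mod_lt _ (by norm_num)⟩ := by
      unfold cov; rw [dif_neg h1, if_neg h2, if_neg h3]
    rw [this]; exact ht _ _

/-- Proper restrictions are unions of eight flats of rank at most two. -/
theorem restr_cover (X : Set Pt) (hX : X ≠ univ) :
    ∃ L : Fin 8 → Set Pt, (∀ i, (M48 ↾ X).IsFlat (L i) ∧ (M48 ↾ X).eRk (L i) ≤ 2) ∧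
      ⋃ i, L i = X := by
  obtain ⟨x, hx⟩ : ∃ x, x ∉ X := by
    by_contra hcon
    push Not at hcon
    exact hX (Set.eq_univ_of_forall hcon)
  refine ⟨fun i => (M48 ↾ X).closure (↑(cov x i) ∩ X), fun i => ⟨Matroid.isFlat_closure _, ?_⟩, ?_⟩
  · rw [Matroid.eRk_closure_eq, Matroid.restrict_eRk_eq _ Set.inter_subset_right]
    exact (M48.eRk_mono Set.inter_subset_left).trans (eRk_cov x i)
  · apply Set.Subset.antisymm
    · apply Set.iUnion_subset
      intro i
      exact (M48 ↾ X).closure_subset_ground _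
    · intro p hp
      have hpx : p ≠ x := by rintro rfl; exact hx hp
      obtain ⟨k, hk⟩ := cov_spec x p hpx
      rw [Set.mem_iUnion]
      refine ⟨k, ?_⟩
      apply (M48 ↾ X).subset_closure (↑(cov x k) ∩ X) (by
        rw [Matroid.restrict_ground_eq]; exact Set.inter_subset_right)
      exact ⟨hk, hp⟩

/-- The matroid is not a union of eight flats of rank at most two. -/
theorem not_cover (L : Fin 8 → Set Pt) (hL : ∀ i, M48.eRk (L i) ≤ 2) (hU : ⋃ i, L i = univ) :
    False := by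
  classical
  have hc : ∀ i, (∃ L' ∈ longLines, L i ⊆ L') ∨ (L i).ncard ≤ 2 := fun i => flat_cases _ (hL i)
  let K : Finset (Fin 8) := Finset.univ.filter (fun i => ∃ b, L i ⊆ ↑(blk b))
  have hK : ∀ i, i ∈ K ↔ ∃ b, L i ⊆ ↑(blk b) := by
    intro i
    simp [K]
  let b : Fin 8 → Pt := fun i => if h : ∃ b, L i ⊆ ↑(blk b) then h.choose else (0, 0)
  have hb : ∀ i ∈ K, L i ⊆ ↑(blk (b i)) := by
    intro i hi
    have h := (hK i).mp hi
    simp only [b, dif_pos h]
    exact h.choose_spec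
  apply noCover K b (fun i => (Set.toFinite (L i)).toFinset)
  · intro i hi
    rcases hc i with ⟨L', hL', hsub⟩ | h2
    · rcases hL' with ⟨b', rfl⟩ | ⟨g, s, rfl⟩
      · exact absurd ((hK i).mpr ⟨b', hsub⟩) hi
      · right
        refine ⟨g, s, ?_⟩
        intro p hp
        exact hsub ((Set.toFinite (L i)).mem_toFinset.mp hp)
    · left
      rw [← Set.ncard_eq_toFinset_card (L i)]
      exact h2
  · intro p
    have hp : p ∈ ⋃ i, L i := by rw [hU]; trivial
    rw [Set.mem_iUnion] at hp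
    obtain ⟨i, hi⟩ := hp
    by_cases hiK : i ∈ K
    · left
      exact ⟨i, hiK, mem_blk.mp (hb i hiK hi)⟩
    · right
      exact ⟨i, hiK, (Set.toFinite (L i)).mem_toFinset.mpr hi⟩

end Q116.MC
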